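import Mathlib

set_option autoImplicit false

namespace Pool.Agent.Results.MP_dd3b7d_gt.NotCoCons
open Set

/-- Scott-open families of open sets. -/
def ScottOpen {Y : Type} [TopologicalSpace Y] (F : Set (Set Y)) : Prop :=
  (∀ U ∈ F, IsOpen U) ∧ (∀ U V : Set Y, U ∈ F → IsOpen V → U ⊆ V → V ∈ F) ∧
    (∀ D : Set (Set Y), D.Nonempty → (∀ U ∈ D, IsOpen U) → DirectedOn (· ⊆ ·) D →
      ⋃₀ D ∈ F → ∃ U ∈ D, U ∈ F)

/-- Co-consonant spaces. -/
def CoConsonant (Y : Type) [TopologicalSpace Y] : Prop :=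
  ∀ F : Set (Set Y), ScottOpen F → ∀ U ∈ F, ∃ E : Set (Set Y), E.Finite ∧ (∀ A ∈ E, IsClosed A) ∧
    (∀ A ∈ E, (U ∩ A).Nonempty) ∧
    ∀ V : Set Y, IsOpen V → (∀ A ∈ E, (V ∩ A).Nonempty) → V ∈ F

/-- Nonempty compact saturated sets. -/
def Smyth (Y : Type) [TopologicalSpace Y] : Type :=
  {K : Set Y // K.Nonempty ∧ IsCompact K ∧ K = ⋂₀ {U | IsOpen U ∧ K ⊆ U}}

/-- The upper Vietoris topology. -/
instance upperVietoris (Y : Type) [TopologicalSpace Y] : TopologicalSpace (Smyth Y) :=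
  TopologicalSpace.generateFrom {S | ∃ U : Set Y, IsOpen U ∧ S = {K : Smyth Y | K.1 ⊆ U}}

abbrev X : Type := CofiniteTopology ℕ

theorem cpt (K : Set X) : IsCompact K := TopologicalSpace.NoetherianSpace.isCompact K

theorem nbhd (W : Set (Smyth X)) (hW : IsOpen W) :
    ∀ K ∈ W, ∃ U : Set X, IsOpen U ∧ K.1 ⊆ U ∧ ∀ L : Smyth X, L.1 ⊆ U → L ∈ W := by
  induction hW with
  | basic S hS =>
    obtain ⟨U, hU, rfl⟩ := hS
    exact fun K hK => ⟨U, hU, hK, fun L hL => hL⟩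
  | univ => exact fun K _ => ⟨univ, isOpen_univ, subset_univ _, fun _ _ => trivial⟩
  | inter S T _ _ h1 h2 =>
    intro K hK
    obtain ⟨U, hU, a, b⟩ := h1 K hK.1
    obtain ⟨V, hV, c, d⟩ := h2 K hK.2
    exact ⟨U ∩ V, hU.inter hV, subset_inter a c,
      fun L hL => ⟨b L (hL.trans inter_subset_left), d L (hL.trans inter_subset_right)⟩⟩
  | sUnion S _ ih =>
    rintro K ⟨T, hT, hK⟩
    obtain ⟨U, hU, a, b⟩ := ih T hT K hK
    exact ⟨U, hU, a, fun L hL => ⟨T, hT, b L hL⟩⟩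

theorem smyth_co : CoConsonant (Smyth X) := by
  intro F hF W hW
  have hWo := hF.1 W hW
  let B : Set (Smyth X) := {L | IsOpen L.1 ∧ ∀ M : Smyth X, M.1 ⊆ L.1 → M ∈ W}
  let up : Set (Smyth X) → Set (Smyth X) := fun T => ⋃ L ∈ T, {M : Smyth X | M.1 ⊆ L.1}
  obtain ⟨_, ⟨T, ⟨hT, hTB⟩, rfl⟩, hTF⟩ := hF.2.2 (up '' {T | T.Finite ∧ T ⊆ B})
    ⟨_, ∅, ⟨finite_empty, empty_subset _⟩, rfl⟩
    (by
      rintro _ ⟨T, ⟨-, hTB⟩, rfl⟩
      exact isOpen_biUnion fun L hL =>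
        TopologicalSpace.isOpen_generateFrom_of_mem ⟨L.1, (hTB hL).1, rfl⟩)
    (by
      rintro _ ⟨T, ⟨hT, hTB⟩, rfl⟩ _ ⟨T', ⟨hT', hTB'⟩, rfl⟩
      exact ⟨_, ⟨T ∪ T', ⟨hT.union hT', union_subset hTB hTB'⟩, rfl⟩,
        biUnion_subset_biUnion_left subset_union_left,
        biUnion_subset_biUnion_left subset_union_right⟩)
    (by
      have : ⋃₀ (up '' {T | T.Finite ∧ T ⊆ B}) = W := by
        refine Subset.antisymm ?_ fun K hK => ?_
        · rintro M ⟨_, ⟨T, ⟨-, hTB⟩, rfl⟩, hM⟩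
          obtain ⟨L, hL, hML⟩ := mem_iUnion₂.1 hM
          exact (hTB hL).2 M hML
        · obtain ⟨U, hU, a, b⟩ := nbhd W hWo K hK
          let L : Smyth X := ⟨U, K.2.1.mono a, cpt U, Subset.antisymm
            (fun x hx V hV => hV.2 hx) (fun x hx => hx U ⟨hU, Subset.rfl⟩)⟩
          exact ⟨_, ⟨{L}, ⟨finite_singleton L, singleton_subset_iff.2 ⟨hU, b⟩⟩, rfl⟩,
            mem_biUnion (mem_singleton L) a⟩
      rw [this]; exact hW)
  refine ⟨(fun L => closure {L}) '' T, hT.image _, ?_, ?_, fun V hV h => hF.2.1 _ V hTF hV ?_⟩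
  · rintro _ ⟨L, -, rfl⟩; exact isClosed_closure
  · rintro _ ⟨L, hL, rfl⟩
    exact ⟨L, (hTB hL).2 L Subset.rfl, subset_closure rfl⟩
  · intro M hM
    obtain ⟨L, hL, hML⟩ := mem_iUnion₂.1 hM
    obtain ⟨N, hNV, hN⟩ := h _ ⟨L, hL, rfl⟩
    obtain ⟨_, hLV, rfl⟩ := mem_closure_iff.1 hN V hV hNV
    obtain ⟨U, -, a, b⟩ := nbhd V hV _ hLV
    exact b M (Subset.trans hML a)

theorem not_co : ¬ CoConsonant X := by
  intro h
  obtain ⟨E, hE, -, h1, h2⟩ := h {univ} ⟨by rintro _ rfl; exact isOpen_univ,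
    by rintro _ V rfl - hV; exact univ_subset_iff.1 hV, by
      intro D hne ho hd hD
      have hD' : (univ : Set X) ⊆ ⋃ U : D, U.1 := by
        rw [← sUnion_eq_iUnion]; exact (show ⋃₀ D = univ from hD).ge
      have : Nonempty D := hne.to_subtype
      obtain ⟨U, hU⟩ := (cpt univ).elim_directed_cover (fun U : D => U.1) (fun U => ho U.1 U.2) hD'
        (fun U V => by
          obtain ⟨Z, hZ, a, b⟩ := hd U.1 U.2 V.1 V.2
          exact ⟨⟨Z, hZ⟩, a, b⟩)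
      exact ⟨U.1, U.2, univ_subset_iff.1 hU⟩⟩ univ rfl
  choose! a ha using h1
  have : Infinite X := Infinite.of_injective (CofiniteTopology.of (X := ℕ)) (Equiv.injective _)
  obtain ⟨y, -, hy⟩ := (infinite_univ (α := X)).exists_notMem_finite (hE.image a)
  have := h2 {y}ᶜ isOpen_compl_singleton fun A hA =>
    ⟨a A, fun h => hy ⟨A, hA, h⟩, (ha A hA).2⟩
  have h3 : y ∈ ({y}ᶜ : Set X) := by rw [show ({y}ᶜ : Set X) = univ from this]; trivial
  exact h3 rfl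

theorem result : ∃ (Y : Type) (_ : TopologicalSpace Y),
    T0Space Y ∧ CoConsonant (Smyth Y) ∧ ¬ CoConsonant Y :=
  ⟨X, inferInstance, inferInstance, smyth_co, not_co⟩

end Pool.Agent.Results.MP_dd3b7d_gt.NotCoCons
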